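import Mathlib

/-!
# The Hilbert series of a polarization module need not be `h`-positive

For all `ℓ, n ≥ 2` the polynomial `f = ∑_{j,l} (x_{1j} x_{2l} - x_{1l} x_{2j})^2` is homogeneous of
multidegree `(2,2,0,…,0)` and diagonally symmetric, and the degree `4` part of its polarization
module contains no element of multidegree `(4,0,…,0)`.  Hence its Hilbert series is not `h`-positive.
-/

namespace Pool.Agent.Results.MP_55095a_co.NotHPositive

open MvPolynomial

/-- The ring `R = ℂ[x_{ij} : 1 ≤ i ≤ ℓ, 1 ≤ j ≤ n]`. -/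
abbrev R (ℓ n : ℕ) : Type := MvPolynomial (Fin ℓ × Fin n) ℂ

/-- The multigraded piece `R_d`: polynomials all of whose monomials have multidegree `d`, where
`x_{ij}` has multidegree the `i`-th unit vector. -/
noncomputable def multiPart (ℓ n : ℕ) (d : Fin ℓ →₀ ℕ) : Submodule ℂ (R ℓ n) :=
  weightedHomogeneousSubmodule ℂ (fun p : Fin ℓ × Fin n => Finsupp.single p.1 1) d

/-- The diagonal action `σ · x_{ij} = x_{i σ(j)}`. -/
noncomputable def permAct {ℓ n : ℕ} (σ : Equiv.Perm (Fin n)) : R ℓ n →ₐ[ℂ] R ℓ n :=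
  rename (fun p : Fin ℓ × Fin n => (p.1, σ p.2))

/-- The generalized polarization operator `E^{(p)}_{i,k} = ∑_j x_{ij} ∂_{kj}^p`. -/
noncomputable def E {ℓ n : ℕ} (p : ℕ) (i k : Fin ℓ) (g : R ℓ n) : R ℓ n :=
  ∑ j : Fin n, X (i, j) * (fun h => pderiv (k, j) h)^[p] g

/-- `W` contains `f` and its orbit and is closed under all partial derivatives and all generalized
polarization operators. -/
structure IsPolarizationClosed {ℓ n : ℕ} (f : R ℓ n) (W : Submodule ℂ (R ℓ n)) : Prop where
  self_mem : f ∈ W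
  orbit_mem : ∀ σ : Equiv.Perm (Fin n), permAct σ f ∈ W
  deriv_mem : ∀ g ∈ W, ∀ (i : Fin ℓ) (j : Fin n), pderiv (i, j) g ∈ W
  polar_mem : ∀ g ∈ W, ∀ (i k : Fin ℓ) (p : ℕ), 1 ≤ p → E p i k g ∈ W

/-- The polarization module `M_f`: the smallest such subspace. -/
noncomputable def polarizationModule {ℓ n : ℕ} (f : R ℓ n) : Submodule ℂ (R ℓ n) :=
  sInf {W | IsPolarizationClosed f W}

/-- The Hilbert series of `M_f` in the variables `q_1, …, q_ℓ`. -/
noncomputable def hilbertSeries {ℓ n : ℕ} (f : R ℓ n) : MvPowerSeries (Fin ℓ) ℕ :=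
  fun d => Module.finrank ℂ ↥(polarizationModule f ⊓ multiPart ℓ n d)

/-- `F` is a combination `∑_{|μ| ≤ D} a_μ h_μ(q_1, …, q_ℓ)` with non-negative integers `a_μ`. -/
def IsHPositive {ℓ : ℕ} (F : MvPowerSeries (Fin ℓ) ℕ) (D : ℕ) : Prop :=
  ∃ a : (k : ℕ) → Nat.Partition k → ℕ,
    F = ∑ k ∈ Finset.range (D + 1), ∑ μ : Nat.Partition k,
      a k μ • ((hsymmPart (Fin ℓ) ℕ μ : MvPolynomial (Fin ℓ) ℕ) : MvPowerSeries (Fin ℓ) ℕ)

/-! ### Complete homogeneous symmetric polynomials -/

lemma homog_prod_X {τ : Type*} (s : Multiset τ) :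
    ((s.map (X : τ → MvPolynomial τ ℕ)).prod).IsHomogeneous s.card := by
  induction s using Multiset.induction with
  | empty => simpa using isHomogeneous_one τ ℕ
  | cons a s ih =>
    rw [Multiset.map_cons, Multiset.prod_cons, Multiset.card_cons, add_comm]
    exact (isHomogeneous_X ℕ a).mul ih

lemma homog_hsymm (τ : Type*) [Fintype τ] [DecidableEq τ] (k : ℕ) :
    (hsymm τ ℕ k).IsHomogeneous k := by
  unfold hsymm
  refine IsHomogeneous.sum _ _ _ fun s _ => ?_
  have := homog_prod_X s.1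
  rwa [s.2] at this

lemma homog_hprod (τ : Type*) [Fintype τ] [DecidableEq τ] (s : Multiset ℕ) :
    ((s.map (hsymm τ ℕ)).prod).IsHomogeneous s.sum := by
  induction s using Multiset.induction with
  | empty => simpa using isHomogeneous_one τ ℕ
  | cons a s ih =>
    rw [Multiset.map_cons, Multiset.prod_cons, Multiset.sum_cons]
    exact (homog_hsymm τ a).mul ih

lemma coeff_hsymm {τ : Type*} [Fintype τ] [DecidableEq τ] (i : τ) (k : ℕ) :
    1 ≤ coeff (Finsupp.single i k) (hsymm τ ℕ k) := by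
  unfold hsymm
  rw [coeff_sum]
  have h := Finset.single_le_sum (f := fun s : Sym τ k =>
    coeff (Finsupp.single i k) ((s.1.map (X : τ → MvPolynomial τ ℕ)).prod))
    (fun _ _ => Nat.zero_le _) (Finset.mem_univ (Sym.replicate k i))
  refine le_trans ?_ h
  have h2 : ((Sym.replicate k i).1.map (X : τ → MvPolynomial τ ℕ)).prod = X i ^ k := by
    change ((Multiset.replicate k i).map (X : τ → MvPolynomial τ ℕ)).prod = X i ^ k
    rw [Multiset.map_replicate, Multiset.prod_replicate]
  simp only [h2]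
  rw [coeff_X_pow, if_pos rfl]

lemma coeff_hprod {τ : Type*} [Fintype τ] [DecidableEq τ] (i : τ) (s : Multiset ℕ) :
    1 ≤ coeff (Finsupp.single i s.sum) ((s.map (hsymm τ ℕ)).prod) := by
  induction s using Multiset.induction with
  | empty => simp
  | cons a s ih =>
    rw [Multiset.map_cons, Multiset.prod_cons, Multiset.sum_cons, coeff_mul]
    have hmem : (Finsupp.single i a, Finsupp.single i s.sum) ∈
        Finset.HasAntidiagonal.antidiagonal (Finsupp.single i (a + s.sum)) := by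
      rw [Finset.HasAntidiagonal.mem_antidiagonal, ← Finsupp.single_add]
    have h := Finset.single_le_sum (f := fun x : (τ →₀ ℕ) × (τ →₀ ℕ) =>
      coeff x.1 (hsymm τ ℕ a) * coeff x.2 ((s.map (hsymm τ ℕ)).prod))
      (fun _ _ => Nat.zero_le _) hmem
    refine le_trans ?_ h
    exact Nat.mul_le_mul (coeff_hsymm i a) ih

/-- A criterion for the failure of `h`-positivity. -/
lemma not_hPositive {ℓ : ℕ} (F : MvPowerSeries (Fin ℓ) ℕ) (i : Fin ℓ) (k : ℕ) (d : Fin ℓ →₀ ℕ)
    (hd : d.degree = k) (h0 : F (Finsupp.single i k) = 0) (h1 : F d ≠ 0) (D : ℕ) :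
    ¬ IsHPositive F D := by
  rintro ⟨a, ha⟩
  have hcoef : ∀ e : Fin ℓ →₀ ℕ, F e = ∑ k ∈ Finset.range (D + 1), ∑ μ : Nat.Partition k,
      a k μ * coeff e (hsymmPart (Fin ℓ) ℕ μ) := by
    intro e
    have h := congrArg (MvPowerSeries.coeff e) ha
    rw [map_sum] at h
    refine h.trans (Finset.sum_congr rfl fun k _ => ?_)
    rw [map_sum]
    refine Finset.sum_congr rfl fun μ _ => ?_
    rw [map_nsmul, MvPolynomial.coeff_coe, smul_eq_mul]
  -- all `a k μ` vanish
  have hz : k ∈ Finset.range (D + 1) → ∀ μ : Nat.Partition k, a k μ = 0 := by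
    intro hk μ
    rw [hcoef] at h0
    rw [Finset.sum_eq_zero_iff] at h0
    have h2 := h0 k hk
    rw [Finset.sum_eq_zero_iff] at h2
    have h3 := h2 μ (Finset.mem_univ _)
    have h4 : 1 ≤ coeff (Finsupp.single i k) (hsymmPart (Fin ℓ) ℕ μ) := by
      have := coeff_hprod (τ := Fin ℓ) i μ.parts
      rw [μ.parts_sum] at this
      exact this
    rcases Nat.mul_eq_zero.mp h3 with h5 | h5
    · exact h5
    · omega
  apply h1
  rw [hcoef]
  refine Finset.sum_eq_zero fun m hm => Finset.sum_eq_zero fun μ _ => ?_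
  rcases eq_or_ne m k with rfl | hne
  · rw [hz hm μ, zero_mul]
  · have hh : (hsymmPart (Fin ℓ) ℕ μ).IsHomogeneous m := by
      have := homog_hprod (Fin ℓ) μ.parts
      rw [μ.parts_sum] at this
      exact this
    rw [hh.coeff_eq_zero (by rw [hd]; exact hne.symm), mul_zero]

/-! ### The operators -/

section ops

variable {ℓ n : ℕ}

lemma iter_add (p : ℕ) (q : Fin ℓ × Fin n) (g h : R ℓ n) :
    (fun h => pderiv q h)^[p] (g + h) = (fun h => pderiv q h)^[p] g + (fun h => pderiv q h)^[p] h := by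
  induction p generalizing g h with
  | zero => rfl
  | succ p ih => rw [Function.iterate_succ_apply, Function.iterate_succ_apply,
      Function.iterate_succ_apply, map_add, ih]

lemma iter_smul (p : ℕ) (q : Fin ℓ × Fin n) (c : ℂ) (g : R ℓ n) :
    (fun h => pderiv q h)^[p] (c • g) = c • (fun h => pderiv q h)^[p] g := by
  induction p generalizing g with
  | zero => rfl
  | succ p ih => rw [Function.iterate_succ_apply, Function.iterate_succ_apply,
      (pderiv q).map_smul, ih]

lemma E_add (p : ℕ) (i k : Fin ℓ) (g h : R ℓ n) : E p i k (g + h) = E p i k g + E p i k h := by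
  unfold E
  rw [← Finset.sum_add_distrib]
  refine Finset.sum_congr rfl fun j _ => ?_
  rw [iter_add, mul_add]

lemma E_smul (p : ℕ) (i k : Fin ℓ) (c : ℂ) (g : R ℓ n) : E p i k (c • g) = c • E p i k g := by
  unfold E
  rw [Finset.smul_sum]
  refine Finset.sum_congr rfl fun j _ => ?_
  rw [iter_smul, mul_smul_comm]

lemma E_zero (p : ℕ) (i k : Fin ℓ) : E p i k (0 : R ℓ n) = 0 := by
  have := E_smul p i k 0 (0 : R ℓ n)
  simpa using this

lemma E_one_mul (i k : Fin ℓ) (g h : R ℓ n) :
    E 1 i k (g * h) = g * E 1 i k h + h * E 1 i k g := by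
  unfold E
  rw [Finset.mul_sum, Finset.mul_sum, ← Finset.sum_add_distrib]
  refine Finset.sum_congr rfl fun j _ => ?_
  simp only [Function.iterate_one]
  rw [Derivation.leibniz]
  simp only [smul_eq_mul]
  ring

lemma E_one_X (i k a : Fin ℓ) (j : Fin n) :
    E 1 i k (X (a, j) : R ℓ n) = if a = k then X (i, j) else 0 := by
  unfold E
  simp only [Function.iterate_one]
  have : ∀ j' : Fin n, (X (i, j') : R ℓ n) * pderiv (k, j') (X (a, j)) =
      if j' = j then (if a = k then X (i, j) else 0) else 0 := by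
    intro j'
    rw [pderiv_X]
    by_cases h1 : j' = j
    · subst h1
      by_cases h2 : a = k
      · subst h2
        simp
      · rw [if_pos rfl, if_neg h2, Pi.single_eq_of_ne, mul_zero]
        intro h
        exact h2 (by simpa using congrArg Prod.fst h)
    · rw [if_neg h1, Pi.single_eq_of_ne, mul_zero]
      intro h
      exact h1 (by simpa using (congrArg Prod.snd h).symm)
  rw [Finset.sum_congr rfl fun j' _ => this j', Finset.sum_ite_eq' Finset.univ j]
  simp

lemma iter_homog (p : ℕ) (q : Fin ℓ × Fin n) {g : R ℓ n} {d : ℕ} (hg : g.IsHomogeneous d) :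
    ((fun h => pderiv q h)^[p] g).IsHomogeneous (d - p) := by
  induction p with
  | zero => exact hg
  | succ p ih =>
    rw [Function.iterate_succ_apply', Nat.sub_succ]
    exact ih.pderiv

lemma E_homog (p : ℕ) (i k : Fin ℓ) {g : R ℓ n} {d : ℕ} (hg : g.IsHomogeneous d) :
    (E p i k g).IsHomogeneous (1 + (d - p)) := by
  unfold E
  refine IsHomogeneous.sum _ _ _ fun j _ => ?_
  exact (isHomogeneous_X ℂ _).mul (iter_homog p _ hg)

/-- The minors `D^{jl}_{ab} = x_{aj} x_{bl} - x_{al} x_{bj}`. -/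
noncomputable def D (j l : Fin n) (a b : Fin ℓ) : R ℓ n :=
  X (a, j) * X (b, l) - X (a, l) * X (b, j)

lemma D_homog (j l : Fin n) (a b : Fin ℓ) : (D j l a b).IsHomogeneous 2 := by
  unfold D
  exact ((isHomogeneous_X ℂ _).mul (isHomogeneous_X ℂ _)).sub
    ((isHomogeneous_X ℂ _).mul (isHomogeneous_X ℂ _))

lemma D_same (j l : Fin n) (a : Fin ℓ) : D j l a a = 0 := by
  unfold D
  ring

lemma D_multi (j l : Fin n) (a b : Fin ℓ) :
    D j l a b ∈ multiPart ℓ n (Finsupp.single a 1 + Finsupp.single b 1) := by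
  unfold D multiPart
  rw [mem_weightedHomogeneousSubmodule]
  refine IsWeightedHomogeneous.sub ?_ ?_
  · exact (isWeightedHomogeneous_X ℂ (fun p : Fin ℓ × Fin n => Finsupp.single p.1 1) (a, j)).mul
      (isWeightedHomogeneous_X ℂ (fun p : Fin ℓ × Fin n => Finsupp.single p.1 1) (b, l))
  · exact (isWeightedHomogeneous_X ℂ (fun p : Fin ℓ × Fin n => Finsupp.single p.1 1) (a, l)).mul
      (isWeightedHomogeneous_X ℂ (fun p : Fin ℓ × Fin n => Finsupp.single p.1 1) (b, j))

lemma multi_mul {g h : R ℓ n} {d e : Fin ℓ →₀ ℕ} (hg : g ∈ multiPart ℓ n d)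
    (hh : h ∈ multiPart ℓ n e) : g * h ∈ multiPart ℓ n (d + e) := by
  unfold multiPart at *
  rw [mem_weightedHomogeneousSubmodule] at *
  exact hg.mul hh

lemma E_D (i k : Fin ℓ) (j l : Fin n) (a b : Fin ℓ) :
    E 1 i k (D j l a b) = (if a = k then D j l i b else 0) + (if b = k then D j l a i else 0) := by
  have hsub : ∀ g h : R ℓ n, E 1 i k (g - h) = E 1 i k g - E 1 i k h := by
    intro g h
    have h1 : g - h = g + (-1 : ℂ) • h := by
      rw [neg_one_smul, sub_eq_add_neg]
    rw [h1, E_add, E_smul, neg_one_smul, sub_eq_add_neg]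
  unfold D
  rw [hsub, E_one_mul, E_one_mul, E_one_X, E_one_X, E_one_X, E_one_X]
  split_ifs <;> ring

/-- The generators of the space `W`. -/
def gens (ℓ n : ℕ) : Set (R ℓ n) :=
  {g | ∃ (j l j' l' : Fin n) (a b c d : Fin ℓ), g = D j l a b * D j' l' c d} ∪
  {g | ∃ k ≤ 3, g.IsHomogeneous k}

/-- The space `W`, spanned by the products of two minors and everything of degree at most `3`. -/
noncomputable def W (ℓ n : ℕ) : Submodule ℂ (R ℓ n) := Submodule.span ℂ (gens ℓ n)

lemma low_mem {g : R ℓ n} {k : ℕ} (hk : k ≤ 3) (hg : g.IsHomogeneous k) : g ∈ W ℓ n :=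
  Submodule.subset_span (Or.inr ⟨k, hk, hg⟩)

lemma DD_mem (j l j' l' : Fin n) (a b c d : Fin ℓ) : D j l a b * D j' l' c d ∈ W ℓ n :=
  Submodule.subset_span (Or.inl ⟨j, l, j', l', a, b, c, d, rfl⟩)

lemma W_deriv (g : R ℓ n) (hg : g ∈ W ℓ n) (i : Fin ℓ) (j : Fin n) : pderiv (i, j) g ∈ W ℓ n := by
  unfold W at hg
  induction hg using Submodule.span_induction with
  | mem x hx =>
    rcases hx with ⟨j, l, j', l', a, b, c, d, rfl⟩ | ⟨k, hk, hx⟩
    · exact low_mem le_rfl ((D_homog j l a b).mul (D_homog j' l' c d)).pderiv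
    · exact low_mem (by omega) hx.pderiv
  | zero => rw [map_zero]; exact Submodule.zero_mem _
  | add x y _ _ hx hy => rw [map_add]; exact Submodule.add_mem _ hx hy
  | smul c x _ hx => rw [(pderiv (i, j)).map_smul]; exact Submodule.smul_mem _ _ hx

lemma W_polar (g : R ℓ n) (hg : g ∈ W ℓ n) (i k : Fin ℓ) (p : ℕ) (hp : 1 ≤ p) :
    E p i k g ∈ W ℓ n := by
  unfold W at hg
  induction hg using Submodule.span_induction with
  | mem x hx =>
    rcases hx with ⟨j, l, j', l', a, b, c, d, rfl⟩ | ⟨m, hm, hx⟩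
    · rcases Nat.eq_or_lt_of_le hp with h1 | h1
      · rw [← h1, E_one_mul, E_D, E_D]
        refine Submodule.add_mem _ ?_ ?_
        · rw [mul_add]
          refine Submodule.add_mem _ ?_ ?_
          · split_ifs
            · exact DD_mem _ _ _ _ _ _ _ _
            · rw [mul_zero]; exact Submodule.zero_mem _
          · split_ifs
            · exact DD_mem _ _ _ _ _ _ _ _
            · rw [mul_zero]; exact Submodule.zero_mem _
        · rw [mul_add]
          refine Submodule.add_mem _ ?_ ?_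
          · split_ifs
            · exact DD_mem _ _ _ _ _ _ _ _
            · rw [mul_zero]; exact Submodule.zero_mem _
          · split_ifs
            · exact DD_mem _ _ _ _ _ _ _ _
            · rw [mul_zero]; exact Submodule.zero_mem _
      · exact low_mem (by omega) (E_homog p i k ((D_homog j l a b).mul (D_homog j' l' c d)))
    · exact low_mem (by omega) (E_homog p i k hx)
  | zero => rw [E_zero]; exact Submodule.zero_mem _
  | add x y _ _ hx hy => rw [E_add]; exact Submodule.add_mem _ hx hy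
  | smul c x _ hx => rw [E_smul]; exact Submodule.smul_mem _ _ hx

lemma degree_of_weight {m : Fin ℓ × Fin n →₀ ℕ} {d : Fin ℓ →₀ ℕ}
    (hm : Finsupp.weight (fun p : Fin ℓ × Fin n => (Finsupp.single p.1 1 : Fin ℓ →₀ ℕ)) m = d) :
    m.degree = d.degree := by
  have h1 := congrArg Finsupp.degree hm
  rw [← h1, Finsupp.weight_apply, Finsupp.sum, map_sum, Finsupp.degree_apply]
  refine Finset.sum_congr rfl fun p _ => ?_
  rw [map_nsmul, Finsupp.degree_single]
  simp

lemma multiPart_finite (d : Fin ℓ →₀ ℕ) : FiniteDimensional ℂ ↥(multiPart ℓ n d) := by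
  have hle : multiPart ℓ n d ≤ homogeneousSubmodule (Fin ℓ × Fin n) ℂ d.degree := by
    intro g hg
    unfold multiPart at hg
    rw [mem_weightedHomogeneousSubmodule] at hg
    rw [mem_homogeneousSubmodule]
    intro m hm
    have h1 := degree_of_weight (hg hm)
    rw [← h1]
    change Finsupp.weight (fun _ => 1) m = _
    rw [Finsupp.weight_apply, Finsupp.degree_apply]
    simp [Finsupp.sum]
  have hfg := homogeneousSubmodule_fg (Fin ℓ × Fin n) ℂ d.degree
  have : FiniteDimensional ℂ ↥(homogeneousSubmodule (Fin ℓ × Fin n) ℂ d.degree) :=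
    Module.Finite.iff_fg.mpr hfg
  exact Submodule.finiteDimensional_of_le hle

/-- `W` has no element of multidegree `4 e_i`. -/
lemma W_inf (i : Fin ℓ) : W ℓ n ⊓ multiPart ℓ n (Finsupp.single i 4) = ⊥ := by
  rw [eq_bot_iff]
  rintro x ⟨hxW, hxm⟩
  rw [Submodule.mem_bot]
  unfold multiPart at hxm
  rw [SetLike.mem_coe, mem_weightedHomogeneousSubmodule] at hxm
  have hxm' : IsWeightedHomogeneous (fun p : Fin ℓ × Fin n => Finsupp.single p.1 1) x
    (Finsupp.single i 4) := hxm
  ext m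
  rw [coeff_zero]
  by_cases hm : Finsupp.weight (fun p : Fin ℓ × Fin n => (Finsupp.single p.1 1 : Fin ℓ →₀ ℕ)) m =
      Finsupp.single i 4
  · -- the coefficient of `m` vanishes on `W`
    have hdeg : m.degree = 4 := by
      rw [degree_of_weight hm, Finsupp.degree_single]
    have hle : W ℓ n ≤ LinearMap.ker (lcoeff ℂ m) := by
      unfold W
      rw [Submodule.span_le]
      rintro g (⟨j, l, j', l', a, b, c, d, rfl⟩ | ⟨k, hk, hg⟩)
      · rw [SetLike.mem_coe, LinearMap.mem_ker]
        change coeff m (D j l a b * D j' l' c d) = 0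
        by_cases hab : a = b
        · rw [hab, D_same, zero_mul, coeff_zero]
        by_cases hcd : c = d
        · rw [hcd, D_same, mul_zero, coeff_zero]
        have h2 := multi_mul (D_multi j l a b) (D_multi j' l' c d)
        unfold multiPart at h2
        rw [mem_weightedHomogeneousSubmodule] at h2
        refine h2.coeff_eq_zero m ?_
        rw [hm]
        intro h3
        have h4 := DFunLike.congr_fun h3 i
        simp only [Finsupp.single_eq_same, Finsupp.add_apply, Finsupp.single_apply] at h4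
        have h5 : ¬ (a = i ∧ b = i) := fun h => hab (h.1.trans h.2.symm)
        have h6 : ¬ (c = i ∧ d = i) := fun h => hcd (h.1.trans h.2.symm)
        by_cases ha : a = i <;> by_cases hb : b = i <;> by_cases hc : c = i <;>
          by_cases hd : d = i <;> simp [ha, hb, hc, hd] at h4 h5 h6
      · rw [SetLike.mem_coe, LinearMap.mem_ker]
        change coeff m g = 0
        exact hg.coeff_eq_zero (by omega)
    have := hle hxW
    rw [LinearMap.mem_ker] at this
    exact this
  · exact hxm'.coeff_eq_zero m hm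

/-- The polynomial `f`. -/
noncomputable def f (i₀ i₁ : Fin ℓ) : R ℓ n := ∑ j : Fin n, ∑ l : Fin n, D j l i₀ i₁ * D j l i₀ i₁

lemma f_sym (i₀ i₁ : Fin ℓ) (σ : Equiv.Perm (Fin n)) : permAct σ (f i₀ i₁ : R ℓ n) = f i₀ i₁ := by
  unfold f
  rw [map_sum]
  have h : ∀ j l : Fin n, permAct σ (D j l i₀ i₁ * D j l i₀ i₁) =
      D (σ j) (σ l) i₀ i₁ * D (σ j) (σ l) i₀ i₁ := by
    intro j l
    unfold D permAct
    simp only [map_mul, map_sub, rename_X]
  simp only [map_sum, h]
  rw [Equiv.sum_comp σ (fun j => ∑ l : Fin n, D j (σ l) i₀ i₁ * D j (σ l) i₀ i₁)]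
  refine Finset.sum_congr rfl fun j _ => ?_
  rw [Equiv.sum_comp σ (fun l => D j l i₀ i₁ * D j l i₀ i₁)]

lemma f_multi (i₀ i₁ : Fin ℓ) : (f i₀ i₁ : R ℓ n) ∈
    multiPart ℓ n (Finsupp.single i₀ 1 + Finsupp.single i₁ 1 +
      (Finsupp.single i₀ 1 + Finsupp.single i₁ 1)) := by
  unfold f
  refine Submodule.sum_mem _ fun j _ => Submodule.sum_mem _ fun l _ => ?_
  exact multi_mul (D_multi _ _ _ _) (D_multi _ _ _ _)

lemma f_ne_zero (i₀ i₁ : Fin ℓ) (hi : i₀ ≠ i₁) (j₀ j₁ : Fin n) (hj : j₀ ≠ j₁) :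
    (f i₀ i₁ : R ℓ n) ≠ 0 := by
  intro h0
  obtain ⟨v, hv⟩ : ∃ v : Fin ℓ × Fin n → ℂ, v = fun p =>
    if p = (i₀, j₀) ∨ p = (i₁, j₁) then 1 else 0 := ⟨_, rfl⟩
  have hv0 : ∀ j, v (i₀, j) = if j = j₀ then 1 else 0 := by
    intro j
    rw [hv]
    simp [hi]
  have hv1 : ∀ j, v (i₁, j) = if j = j₁ then 1 else 0 := by
    intro j
    rw [hv]
    simp [hi.symm]
  have h1 := congrArg (eval v) h0
  unfold f D at h1
  simp only [map_sum, map_mul, map_sub, eval_X, map_zero, hv0, hv1] at h1
  have h2 : ∀ j l : Fin n,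
      (((if j = j₀ then (1 : ℂ) else 0) * (if l = j₁ then 1 else 0) -
        (if l = j₀ then 1 else 0) * (if j = j₁ then 1 else 0)) *
      ((if j = j₀ then 1 else 0) * (if l = j₁ then 1 else 0) -
        (if l = j₀ then 1 else 0) * (if j = j₁ then 1 else 0))) =
      (if j = j₀ then (if l = j₁ then 1 else 0) else 0) +
      (if j = j₁ then (if l = j₀ then 1 else 0) else 0) := by
    intro j l
    by_cases a : j = j₀
    · have a' : j ≠ j₁ := fun h => hj (a.symm.trans h)
      by_cases b : l = j₁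
      · have b' : l ≠ j₀ := fun h => hj (h.symm.trans b)
        simp [a, b, hj]
      · simp [a, b, hj]
    · by_cases b : l = j₀
      · by_cases c : j = j₁
        · simp [b, c, hj, hj.symm]
        · simp [a, b, c]
      · simp [a, b]
  simp only [h2, Finset.sum_add_distrib] at h1
  simp at h1

end ops

/-- **Theorem.** For all `ℓ, n ≥ 2` there is a homogeneous diagonally symmetric polynomial `f`
such that the Hilbert series of the polarization module `M_f` is not a non-negative integer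
combination of the `h_μ`, whatever bound `D` on `|μ|` is allowed. -/
theorem result : ∀ ℓ n : ℕ, 2 ≤ ℓ → 2 ≤ n → ∃ f : R ℓ n,
    (∃ d : Fin ℓ →₀ ℕ, f ∈ multiPart ℓ n d) ∧ (∀ σ : Equiv.Perm (Fin n), permAct σ f = f) ∧
    ∀ D : ℕ, ¬ IsHPositive (hilbertSeries f) D := by
  intro ℓ n hℓ hn
  obtain ⟨i₀, i₁, hi⟩ : ∃ i₀ i₁ : Fin ℓ, i₀ ≠ i₁ := by
    refine ⟨⟨0, by omega⟩, ⟨1, by omega⟩, ?_⟩
    simp
  obtain ⟨j₀, j₁, hj⟩ : ∃ j₀ j₁ : Fin n, j₀ ≠ j₁ := by
    refine ⟨⟨0, by omega⟩, ⟨1, by omega⟩, ?_⟩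
    simp
  refine ⟨f i₀ i₁, ⟨_, f_multi i₀ i₁⟩, f_sym i₀ i₁, fun D => ?_⟩
  have hW : IsPolarizationClosed (f i₀ i₁ : R ℓ n) (W ℓ n) := by
    have hf : (f i₀ i₁ : R ℓ n) ∈ W ℓ n := by
      unfold f
      exact Submodule.sum_mem _ fun j _ => Submodule.sum_mem _ fun l _ => DD_mem _ _ _ _ _ _ _ _
    exact ⟨hf, fun σ => by rw [f_sym]; exact hf, fun g hg i j => W_deriv g hg i j,
      fun g hg i k p hp => W_polar g hg i k p hp⟩
  have hle : polarizationModule (f i₀ i₁ : R ℓ n) ≤ W ℓ n := sInf_le hW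
  have hmem : (f i₀ i₁ : R ℓ n) ∈ polarizationModule (f i₀ i₁ : R ℓ n) := by
    unfold polarizationModule
    rw [Submodule.mem_sInf]
    exact fun V hV => hV.self_mem
  refine not_hPositive (hilbertSeries (f i₀ i₁ : R ℓ n)) i₀ 4
    (Finsupp.single i₀ 1 + Finsupp.single i₁ 1 + (Finsupp.single i₀ 1 + Finsupp.single i₁ 1))
    ?_ ?_ ?_ D
  · simp only [map_add, Finsupp.degree_single]
  · change Module.finrank ℂ ↥(polarizationModule (f i₀ i₁ : R ℓ n) ⊓
      multiPart ℓ n (Finsupp.single i₀ 4)) = 0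
    have hbot : polarizationModule (f i₀ i₁ : R ℓ n) ⊓
      multiPart ℓ n (Finsupp.single i₀ 4) = ⊥ := by
      rw [eq_bot_iff, ← W_inf i₀]
      exact inf_le_inf_right _ hle
    rw [hbot]
    exact finrank_bot ℂ _
  · change Module.finrank ℂ ↥(polarizationModule (f i₀ i₁ : R ℓ n) ⊓
      multiPart ℓ n (Finsupp.single i₀ 1 + Finsupp.single i₁ 1 +
        (Finsupp.single i₀ 1 + Finsupp.single i₁ 1))) ≠ 0
    have hfd : FiniteDimensional ℂ ↥(multiPart ℓ n (Finsupp.single i₀ 1 + Finsupp.single i₁ 1 +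
        (Finsupp.single i₀ 1 + Finsupp.single i₁ 1))) := multiPart_finite _
    have hfd2 : FiniteDimensional ℂ ↥(polarizationModule (f i₀ i₁ : R ℓ n) ⊓
      multiPart ℓ n (Finsupp.single i₀ 1 + Finsupp.single i₁ 1 +
        (Finsupp.single i₀ 1 + Finsupp.single i₁ 1))) :=
      Submodule.finiteDimensional_of_le inf_le_right
    intro h0
    rw [Submodule.finrank_eq_zero] at h0
    have : (f i₀ i₁ : R ℓ n) ∈ (⊥ : Submodule ℂ (R ℓ n)) := by
      rw [← h0]
      exact ⟨hmem, f_multi i₀ i₁⟩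
    rw [Submodule.mem_bot] at this
    exact f_ne_zero i₀ i₁ hi j₀ j₁ hj this

end Pool.Agent.Results.MP_55095a_co.NotHPositive
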